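import Pool.Agent.H218R3.ExB

set_option autoImplicit false
open Set

namespace Pool.Agent.Results.MP_0e64fd_an.TypeTwoExists

open Pool.Agent.H218R3.Fat

/-- There is a transcendental entire function `f` with a multiply connected wandering domain
`U = V 0` (the Fatou components `V n` contain the images of `U` under the iterates of `f` and are
pairwise distinct, and the complement of `U` is not connected) and a connected component `K` of
the complement of `U` whose interior is non-empty and is a union of Fatou components of `f`. -/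
theorem result : ∃ (f : ℂ → ℂ) (V : ℕ → Set ℂ) (K : Set ℂ),
    Differentiable ℂ f ∧ (¬ ∃ p : Polynomial ℂ, ∀ z, f z = p.eval z) ∧
    (∀ n, IsFatouComponent f (V n) ∧ f^[n] '' V 0 ⊆ V n) ∧
    (∀ n m, n ≠ m → V n ≠ V m) ∧
    ¬ IsConnected (V 0)ᶜ ∧
    (∃ q ∈ (V 0)ᶜ, K = connectedComponentIn (V 0)ᶜ q) ∧
    (interior K).Nonempty ∧
    ∃ 𝒮 : Set (Set ℂ), (∀ W ∈ 𝒮, IsFatouComponent f W) ∧ interior K = ⋃₀ 𝒮 := by
  obtain ⟨f, ζ, ε, S, h⟩ := Pool.Agent.H218R3.Ser.exB
  obtain ⟨K, h1, h2, h3⟩ := h 0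
  refine ⟨f, fun n => UU f ζ (n + 1), K, S.diff, S.not_poly, fun n => ⟨S.isFatouComponent_UU _, ?_⟩,
    fun n m hnm => S.UU_ne (by omega), fun hc => S.compl_not_preconnected _ hc.isPreconnected,
    h1, h2, h3⟩
  rintro _ ⟨z, hz, rfl⟩
  have := S.iter_UU n hz
  rwa [show 0 + 1 + n = n + 1 by ring] at this

end Pool.Agent.Results.MP_0e64fd_an.TypeTwoExists
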